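import Mathlib

set_option autoImplicit false

/-! # Definitions for the chapter PAR (helper56)

`E0 : y² = x³ - x` over `ℤ`; points with coordinates in a field `F` are `Pt F`. `hN k N f` is the
degree `[N : k(f)]` (`0` if `f` is a constant). -/

namespace PiPar

open WeierstrassCurve WeierstrassCurve.Affine

/-- The curve `y² = x³ - x` over `ℤ`. -/
def E0 : WeierstrassCurve.Affine ℤ := ⟨0, 0, 0, -1, 0⟩

/-- The curve `y² = x³ - x` over `F`. -/
abbrev EF (F : Type*) [Field F] : WeierstrassCurve.Affine F := E0⁄F

/-- The group of points of `y² = x³ - x` with coordinates in `F`. -/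
abbrev Pt (F : Type*) [Field F] : Type _ := (EF F).Point

section basic

variable {F : Type*} [Field F]

@[simp] lemma EF_a1 : (EF F).a₁ = 0 := by simp [EF, E0, WeierstrassCurve.Affine.baseChange, WeierstrassCurve.baseChange]
@[simp] lemma EF_a2 : (EF F).a₂ = 0 := by simp [EF, E0, WeierstrassCurve.Affine.baseChange, WeierstrassCurve.baseChange]
@[simp] lemma EF_a3 : (EF F).a₃ = 0 := by simp [EF, E0, WeierstrassCurve.Affine.baseChange, WeierstrassCurve.baseChange]
@[simp] lemma EF_a4 : (EF F).a₄ = -1 := by simp [EF, E0, WeierstrassCurve.Affine.baseChange, WeierstrassCurve.baseChange]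
@[simp] lemma EF_a6 : (EF F).a₆ = 0 := by simp [EF, E0, WeierstrassCurve.Affine.baseChange, WeierstrassCurve.baseChange]

lemma EF_equation (x y : F) : (EF F).Equation x y ↔ y ^ 2 = x ^ 3 - x := by
  rw [WeierstrassCurve.Affine.equation_iff]
  simp only [EF_a1, EF_a2, EF_a3, EF_a4, EF_a6]
  constructor <;> intro h <;> linear_combination h

lemma EF_nonsingular (h2 : (2 : F) ≠ 0) (x y : F) :
    (EF F).Nonsingular x y ↔ y ^ 2 = x ^ 3 - x := by
  rw [WeierstrassCurve.Affine.nonsingular_iff, EF_equation]
  simp only [EF_a1, EF_a2, EF_a3, EF_a4]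
  constructor
  · exact fun h => h.1
  · intro h
    refine ⟨h, ?_⟩
    by_contra hc
    push Not at hc
    obtain ⟨h1, h3⟩ := hc
    have hy : y = 0 := by
      have : 2 * y = 0 := by linear_combination h3
      rcases mul_eq_zero.1 this with h | h
      · exact absurd h h2
      · exact h
    subst hy
    have hx : (3 * x ^ 2 - 1) = 0 := by linear_combination -h1
    have hx2 : x * (x ^ 2 - 1) = 0 := by linear_combination -h
    rcases mul_eq_zero.1 hx2 with h0 | h0
    · subst h0; norm_num at hx
    · apply h2
      linear_combination hx - 3 * h0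

@[simp] lemma EF_negY (x y : F) : (EF F).negY x y = -y := by
  simp only [WeierstrassCurve.Affine.negY, EF_a1, EF_a3]
  ring

end basic

/-- the affine point `(x, y)` -/
def mkPt {F : Type*} [Field F] [CharZero F] (x y : F) (h : y ^ 2 = x ^ 3 - x) : Pt F :=
  .some x y ((EF_nonsingular two_ne_zero x y).2 h)

/-- The degree `[N : k(f)]` of `f ∈ N` over `k` (it is `0` if `f` is in `k` and `N` is infinite over
`k`). -/
noncomputable def hN (k N : Type*) [Field k] [Field N] [Algebra k N] (f : N) : ℕ :=
  Module.finrank (IntermediateField.adjoin k {f}) N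

/-- The degree of the `x`-coordinate of a point (`0` for the origin). -/
noncomputable def hx (k : Type*) {N : Type*} [Field k] [Field N] [Algebra k N] : Pt N → ℕ
  | .zero => 0
  | .some x _ _ => hN k N x

@[simp] lemma hx_zero (k N : Type*) [Field k] [Field N] [Algebra k N] :
    hx k (0 : Pt N) = 0 := rfl

@[simp] lemma hx_some (k : Type*) {N : Type*} [Field k] [Field N] [Algebra k N] (x y : N)
    (h : (EF N).Nonsingular x y) :
    hx k (WeierstrassCurve.Affine.Point.some x y h : Pt N) = hN k N x := rfl

@[simp] lemma hx_neg (k : Type*) {N : Type*} [Field k] [Field N] [Algebra k N] (P : Pt N) :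
    hx k (-P) = hx k P := by
  rcases P with _ | ⟨x, y, h⟩ <;> rfl

/-- `N/k` is a function field of one variable. -/
def IsFF (k N : Type*) [Field k] [Field N] [Algebra k N] : Prop :=
  ∃ t : N, Transcendental k t ∧ FiniteDimensional (IntermediateField.adjoin k {t}) N

/-- The map of points induced by a `k`-algebra homomorphism. -/
noncomputable abbrev mapPt {k F K : Type*} [Field k] [Field F] [Field K] [Algebra k F]
    [Algebra k K] [DecidableEq F] [DecidableEq K] (f : F →ₐ[k] K) : Pt F →+ Pt K :=
  WeierstrassCurve.Affine.Point.map (W' := E0) f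

/-- `g_Q = D(x)/y` -/
noncomputable def gQ {F : Type*} [Field F] (D : F → F) : Pt F → F
  | .zero => 0
  | .some x y _ => D x / y

/-- the function field of `y² = x³ - x` over `k` -/
abbrev FE (k : Type*) [Field k] : Type _ := (EF k).FunctionField

/-- the function `x` -/
noncomputable def x0 (k : Type*) [Field k] : FE k :=
  algebraMap (EF k).CoordinateRing (FE k)
    (WeierstrassCurve.Affine.CoordinateRing.mk (EF k) (Polynomial.C Polynomial.X))

/-- the function `y` -/
noncomputable def y0 (k : Type*) [Field k] : FE k :=
  algebraMap (EF k).CoordinateRing (FE k)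
    (WeierstrassCurve.Affine.CoordinateRing.mk (EF k) Polynomial.X)

end PiPar
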