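import Pool.Agent.Lib.MP_43d240_ag.H56.Defs
import Pool.Agent.Lib.MP_43d240_ag.PI.FFBase

set_option autoImplicit false

/-! # From points to three collinear abscissae -/

namespace PiPar

open WeierstrassCurve WeierstrassCurve.Affine

theorem collinear {N : Type*} [Field N] [CharZero N] [DecidableEq N] (m c t1 t2 t3 : N)
    (e1 : t1 + t2 + t3 = m ^ 2) (e2 : t1 * t2 + t1 * t3 + t2 * t3 = -(1 + 2 * m * c))
    (e3 : t1 * t2 * t3 = c ^ 2)
    (h1 : (m * t1 + c) ^ 2 = t1 ^ 3 - t1) (h2 : (m * t2 + c) ^ 2 = t2 ^ 3 - t2) :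
    ∃ (y : N) (h : (EF N).Nonsingular t3 y),
      mkPt t1 (m * t1 + c) h1 + mkPt t2 (m * t2 + c) h2 = Point.some t3 y h := by
  have h2N : (2 : N) ≠ 0 := two_ne_zero
  -- the slope is `m`
  have hxy : ¬ (t1 = t2 ∧ (m * t1 + c) = (EF N).negY t2 (m * t2 + c)) := by
    rintro ⟨rfl, hy⟩
    rw [EF_negY] at hy
    have hy0 : m * t1 + c = 0 := by
      have : 2 * (m * t1 + c) = 0 := by linear_combination hy
      rcases mul_eq_zero.1 this with h | h
      · exact absurd h h2N
      · exact h
    -- derivative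
    have hd : 3 * t1 ^ 2 - 1 = 0 := by
      have h3 : 3 * t1 ^ 2 - 1 - 2 * m * (m * t1 + c) = 0 := by
        linear_combination 2 * t1 * e1 - e2
      rw [hy0] at h3
      linear_combination h3
    have hx2 : t1 * (t1 ^ 2 - 1) = 0 := by
      rw [hy0] at h1
      linear_combination -h1
    rcases mul_eq_zero.1 hx2 with h0 | h0
    · rw [h0] at hd; norm_num at hd
    · apply h2N
      linear_combination hd - 3 * h0
  have hslope : (EF N).slope t1 t2 (m * t1 + c) (m * t2 + c) = m := by
    by_cases ht : t1 = t2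
    · subst ht
      have hy : m * t1 + c ≠ (EF N).negY t1 (m * t1 + c) := fun h => hxy ⟨rfl, h⟩
      rw [WeierstrassCurve.Affine.slope_of_Y_ne rfl hy, EF_negY]
      rw [EF_negY] at hy
      have hne : m * t1 + c - -(m * t1 + c) ≠ 0 := sub_ne_zero.2 hy
      rw [div_eq_iff hne]
      simp only [EF_a1, EF_a2, EF_a4]
      linear_combination 2 * t1 * e1 - e2
    · rw [WeierstrassCurve.Affine.slope_of_X_ne ht]
      have hne : t1 - t2 ≠ 0 := sub_ne_zero.2 ht
      rw [div_eq_iff hne]
      ring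
  have hX : (EF N).addX t1 t2 ((EF N).slope t1 t2 (m * t1 + c) (m * t2 + c)) = t3 := by
    rw [hslope]
    simp only [WeierstrassCurve.Affine.addX, EF_a1, EF_a2]
    linear_combination -e1
  have hadd := WeierstrassCurve.Affine.Point.add_some hxy
    (h₁ := (EF_nonsingular two_ne_zero _ _).2 h1) (h₂ := (EF_nonsingular two_ne_zero _ _).2 h2)
  have hns := WeierstrassCurve.Affine.nonsingular_add
    ((EF_nonsingular two_ne_zero _ _).2 h1) ((EF_nonsingular two_ne_zero _ _).2 h2) hxy
  refine ⟨_, hX ▸ hns, ?_⟩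
  rw [mkPt, mkPt, hadd, Point.some.injEq]
  exact ⟨hX, rfl⟩

/-- the statement of the chapter from the statement on points -/
theorem parStatement_of
    (h : ∀ (k N : Type) [Field k] [IsAlgClosed k] [CharZero k] [Field N] [Algebra k N]
      [DecidableEq N], IsFF k N → ∀ P Q : Pt N, 4 ∣ hx k P + hx k Q + hx k (P + Q)) :
    Pool.Agent.PI.PARStatement := by
  intro k κ _ _ _ _ _ hff m c t1 t2 t3 e1 e2 e3
  classical
  have : CharZero κ := charZero_of_injective_algebraMap (algebraMap k κ).injective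
  have root : ∀ t : κ, (t - t1) * (t - t2) * (t - t3) = t ^ 3 - t - (m * t + c) ^ 2 := by
    intro t
    linear_combination -t ^ 2 * e1 + t * e2 - e3
  have h1 : (m * t1 + c) ^ 2 = t1 ^ 3 - t1 := by
    have := root t1
    rw [sub_self, zero_mul, zero_mul] at this
    linear_combination this
  have h2 : (m * t2 + c) ^ 2 = t2 ^ 3 - t2 := by
    have := root t2
    rw [sub_self, mul_zero, zero_mul] at this
    linear_combination this
  obtain ⟨y, hy, hadd⟩ := collinear m c t1 t2 t3 e1 e2 e3 h1 h2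
  have key := h k κ hff (mkPt t1 (m * t1 + c) h1) (mkPt t2 (m * t2 + c) h2)
  rw [hadd] at key
  exact key

end PiPar
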