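import Pool.Agent.Lib.MP_43d240_ag.H56.Trace

set_option autoImplicit false

/-! # Module Z: assembly of PAR -/

namespace PiPar

open WeierstrassCurve WeierstrassCurve.Affine

universe u v

section

theorem mapPt_mkPt {k F K : Type*} [Field k] [Field F] [Field K] [Algebra k F] [Algebra k K]
    [DecidableEq F] [DecidableEq K] [CharZero F] (f : F →ₐ[k] K) (x y : F)
    (h : y ^ 2 = x ^ 3 - x) (x' y' : K) (h' : (EF K).Nonsingular x' y') (hx' : f x = x')
    (hy' : f y = y') : mapPt f (mkPt x y h) = Point.some x' y' h' := by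
  subst hx' hy'
  rfl

variable (k : Type u) [Field k] [CharZero k]

omit [CharZero k] in
theorem finrank_eq_zero_of_isFF {N : Type v} [Field N] [Algebra k N] (hN' : IsFF k N) :
    Module.finrank k N = 0 := by
  obtain ⟨t, ht, _⟩ := hN'
  by_contra h
  have : Module.Finite k N := Module.finite_of_finrank_pos (Nat.pos_of_ne_zero h)
  exact ht (Algebra.IsAlgebraic.isAlgebraic t)

variable [IsAlgClosed k]

/-- a constant point comes from `k` -/
theorem exists_const_point {N : Type v} [Field N] [Algebra k N] [DecidableEq N] [DecidableEq k]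
    (x y : N) (h : (EF N).Nonsingular x y) (hxc : x ∈ Set.range (algebraMap k N)) :
    ∃ P' : Pt k, mapPt (Algebra.ofId k N) P' = Point.some x y h := by
  have : CharZero N := charZero_of_injective_algebraMap (algebraMap k N).injective
  obtain ⟨c, rfl⟩ := hxc
  have h1 := (EF_nonsingular two_ne_zero _ _).1 h
  obtain ⟨d, hd⟩ := IsAlgClosed.exists_pow_nat_eq (c ^ 3 - c) (n := 2) (by norm_num)
  have h2 : (y - algebraMap k N d) * (y + algebraMap k N d) = 0 := by
    have h3 : (algebraMap k N d) ^ 2 = (algebraMap k N c) ^ 3 - algebraMap k N c := by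
      rw [← map_pow, hd]; simp
    linear_combination h1 - h3
  rcases mul_eq_zero.1 h2 with h0 | h0
  · have hy : y = algebraMap k N d := by linear_combination h0
    subst hy
    exact ⟨mkPt c d hd, rfl⟩
  · have hy : y = algebraMap k N (-d) := by rw [map_neg]; linear_combination h0
    subst hy
    exact ⟨mkPt c (-d) (by rw [neg_sq]; exact hd), rfl⟩

end

/-- assembly -/
theorem PAR_of (k : Type u) [Field k] [IsAlgClosed k] [CharZero k]
    (H1 : ∀ (N : Type v) [Field N] [Algebra k N], IsFF k N → ∀ f : N,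
      f ∉ Set.range (algebraMap k N) → Transcendental k f)
    (H2 : ∀ (N : Type v) [Field N] [Algebra k N], IsFF k N → ∀ f : N,
      (hN k N f = 0 ↔ f ∈ Set.range (algebraMap k N)))
    (H4 : ∀ (L : Type v) [Field L] [Algebra k L] [Algebra (FE k) L] [IsScalarTower k (FE k) L]
      [FiniteDimensional (FE k) L], IsFF k L)
    (hpar : ∀ (L : Type v) [Field L] [Algebra k L] [DecidableEq L], IsFF k L →
      ∀ P Q : Pt L, hx k (P + Q) + hx k (P - Q) = 2 * hx k P + 2 * hx k Q)
    (hcurve : (y0 k) ^ 2 = (x0 k) ^ 3 - x0 k)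
    (hN_x0 : hN k (FE k) (x0 k) = 2)
    (hex : ∀ (N : Type v) [Field N] [Algebra k N] (x y : N), y ^ 2 = x ^ 3 - x →
      Transcendental k x → ∃ f : FE k →ₐ[k] N, f (x0 k) = x ∧ f (y0 k) = y)
    (hev : ∀ [DecidableEq (FE k)] (P0 : Pt (FE k))
      (_ : ∃ h, P0 = WeierstrassCurve.Affine.Point.some (x0 k) (y0 k) h) (P : Pt (FE k)),
      (4 : ℤ) ∣ (hx k (P + P0) : ℤ) - hx k P - hx k P0)
    (N : Type v) [Field N] [Algebra k N] [DecidableEq N] (hN' : IsFF k N) (P Q : Pt N) :
    4 ∣ hx k P + hx k Q + hx k (P + Q) := by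
  classical
  have hchN : CharZero N := charZero_of_injective_algebraMap (algebraMap k N).injective
  have hchF : CharZero (FE k) := charZero_of_injective_algebraMap (algebraMap k (FE k)).injective
  -- a nonconstant point
  have key : ∀ (x y : N) (h : (EF N).Nonsingular x y), x ∉ Set.range (algebraMap k N) →
      2 ∣ hN k N x ∧ ∀ Q : Pt N, (4 : ℤ) ∣ B2 k (Point.some x y h) Q := by
    intro x y h hxc
    have h1 := (EF_nonsingular two_ne_zero _ _).1 h
    obtain ⟨φ, hφx, hφy⟩ := hex N x y h1 (H1 N hN' x hxc)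
    let _ : Algebra (FE k) N := (φ : FE k →+* N).toAlgebra
    have htow : IsScalarTower k (FE k) N :=
      IsScalarTower.of_algebraMap_eq (fun c => (φ.commutes c).symm)
    have hdeg : hN k N x = Module.finrank (FE k) N * 2 := by
      have := hN_map k (N := FE k) (N' := N) (x0 k)
      rw [hN_x0] at this
      rw [← this]
      congr 1
      exact hφx.symm
    refine ⟨⟨Module.finrank (FE k) N, by rw [hdeg]; ring⟩, ?_⟩
    intro Q
    have hne : hN k N x ≠ 0 := fun h0 => hxc ((H2 N hN' x).1 h0)
    have hfr : 0 < Module.finrank (FE k) N := by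
      rcases Nat.eq_zero_or_pos (Module.finrank (FE k) N) with h0 | h0
      · rw [hdeg, h0] at hne; simp at hne
      · exact h0
    have hfd : FiniteDimensional (FE k) N := Module.finite_of_finrank_pos hfr
    obtain ⟨R, hR⟩ := exists_trace k (FE k) N (fun L _ _ _ _ _ => H4 L) hpar
      (mkPt (x0 k) (y0 k) hcurve) Q
    have hP : mapPt (IsScalarTower.toAlgHom k (FE k) N) (mkPt (x0 k) (y0 k) hcurve) =
        Point.some x y h := mapPt_mkPt _ _ _ _ _ _ _ hφx hφy
    rw [hP] at hR
    rw [hR]
    have := hev (mkPt (x0 k) (y0 k) hcurve) ⟨_, rfl⟩ R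
    rw [B2]
    rw [add_comm] at this
    have h2 : (hx k (mkPt (x0 k) (y0 k) hcurve + R) : ℤ) - hx k (mkPt (x0 k) (y0 k) hcurve) -
        hx k R = (hx k (mkPt (x0 k) (y0 k) hcurve + R) : ℤ) - hx k R -
        hx k (mkPt (x0 k) (y0 k) hcurve) := by ring
    rw [h2]
    exact this
  -- all degrees are even
  have heven : ∀ P : Pt N, 2 ∣ hx k P := by
    intro P
    rcases P with _ | ⟨x, y, h⟩
    · exact dvd_zero 2
    · by_cases hxc : x ∈ Set.range (algebraMap k N)
      · rw [hx_some, (H2 N hN' x).2 hxc]; exact dvd_zero 2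
      · exact (key x y h hxc).1
  -- `4 ∣ B2`
  have hB : (4 : ℤ) ∣ B2 k P Q := by
    have hcomm : B2 k P Q = B2 k Q P := by
      rw [B2, B2, add_comm P Q]; ring
    rcases P with _ | ⟨x, y, h⟩
    · have : B2 k (Point.zero : Pt N) Q = 0 := by
        rw [B2, ← Point.zero_def, zero_add, hx_zero]; push_cast; ring
      rw [this]; exact dvd_zero _
    · by_cases hxc : x ∈ Set.range (algebraMap k N)
      · rcases Q with _ | ⟨x', y', h'⟩
        · have : B2 k (Point.some x y h : Pt N) Point.zero = 0 := by
            rw [B2, ← Point.zero_def, add_zero, hx_zero]; push_cast; ring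
          rw [this]; exact dvd_zero _
        · by_cases hxc' : x' ∈ Set.range (algebraMap k N)
          · obtain ⟨P', hP'⟩ := exists_const_point k x y h hxc
            obtain ⟨Q', hQ'⟩ := exists_const_point k x' y' h' hxc'
            have hz : ∀ S : Pt k, hx k (mapPt (Algebra.ofId k N) S) = 0 := by
              intro S
              have := hx_map k (N := k) (N' := N) S
              rw [finrank_eq_zero_of_isFF k hN', zero_mul] at this
              exact this
            rw [← hP', ← hQ', B2, ← map_add, hz, hz, hz]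
            simp
          · rw [hcomm]
            exact (key x' y' h' hxc').2 _
      · exact (key x y h hxc).2 Q
  -- conclusion
  obtain ⟨a, ha⟩ := heven P
  obtain ⟨b, hb⟩ := heven Q
  obtain ⟨c, hc⟩ := hB
  rw [B2] at hc
  have : (4 : ℤ) ∣ (hx k P : ℤ) + hx k Q + hx k (P + Q) := by
    refine ⟨c + a + b, ?_⟩
    have ha' : (hx k P : ℤ) = 2 * a := by exact_mod_cast ha
    have hb' : (hx k Q : ℤ) = 2 * b := by exact_mod_cast hb
    linarith
  exact_mod_cast this

end PiPar
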