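import Pool.Agent.Lib.MP_43d240_ag.H56.Tower
import Pool.Agent.Lib.MP_43d240_ag.H2.F1c

set_option autoImplicit false

/-! # Module H1: function fields of one variable -/

namespace PiPar

open Pool.Agent.PI Pool.Agent.Lib.MP_43d240_ag.H2 IntermediateField

section

variable (k : Type) [Field k] [IsAlgClosed k]

theorem transcendental_of_not_const {N : Type} [Field N] [Algebra k N] (f : N)
    (hf : f ∉ Set.range (algebraMap k N)) : Transcendental k f := by
  by_contra h
  exact hf (const_of_isAlgebraic h)

theorem finiteDimensional_of_not_const {N : Type} [Field N] [Algebra k N] (hN' : IsFF k N) (f : N)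
    (hf : f ∉ Set.range (algebraMap k N)) : FiniteDimensional k⟮f⟯ N :=
  FF1_finiteDimensional hN' (transcendental_of_not_const k f hf)

theorem hN_eq_zero_iff {N : Type} [Field N] [Algebra k N] (hN' : IsFF k N) (f : N) :
    hN k N f = 0 ↔ f ∈ Set.range (algebraMap k N) := by
  constructor
  · intro h
    by_contra hf
    have := finiteDimensional_of_not_const k hN' f hf
    have hpos : 0 < Module.finrank k⟮f⟯ N := Module.finrank_pos
    rw [hN] at h
    omega
  · rintro ⟨c, rfl⟩
    exact ht_const hN' c

end

theorem IsFF.finite' (k : Type) [Field k] {N N' : Type} [Field N] [Field N'] [Algebra k N]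
    [Algebra k N'] [Algebra N N'] [IsScalarTower k N N'] (hN' : IsFF k N)
    [FiniteDimensional N N'] : IsFF k N' := by
  obtain ⟨t, ht, hfin⟩ := hN'
  refine ⟨algebraMap N N' t, ?_, ?_⟩
  · intro halg
    exact ht ((isAlgebraic_algebraMap_iff (algebraMap N N').injective).1 halg)
  · apply Module.finite_of_finrank_pos
    have h := hN_map k (N := N) (N' := N') t
    rw [hN, hN] at h
    rw [h]
    exact Nat.mul_pos Module.finrank_pos Module.finrank_pos

end PiPar
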