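import Pool.Agent.Lib.MP_43d240_ag.H56.FinalAux
import Pool.Agent.Lib.MP_43d240_ag.H56.Conv
import Pool.Agent.Lib.MP_43d240_ag.H56.H1
import Pool.Agent.Lib.MP_43d240_ag.H41.ParA
import Pool.Agent.Lib.MP_43d240_ag.H41.ParB
import Pool.Agent.Lib.MP_43d240_ag.H91.H5
import Pool.Agent.Lib.MP_43d240_ag.H80.C3
import Pool.Agent.Lib.MP_43d240_ag.H22.C4
import Pool.Agent.Lib.MP_43d240_ag.H58.C5
import Pool.Agent.Lib.MP_43d240_ag.H16.D2
import Pool.Agent.Lib.MP_43d240_ag.H2.Par

set_option autoImplicit false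

/-! # Chapter PAR: the final statement -/

namespace PiPar

open WeierstrassCurve WeierstrassCurve.Affine

theorem algHom_ext_FE (k : Type) [Field k] (f g : FE k →ₐ[k] FE k) (hx : f (x0 k) = g (x0 k))
    (hy : f (y0 k) = g (y0 k)) : f = g := by
  refine AlgHom.ext fun z => ?_
  have hz : z ∈ IntermediateField.adjoin k {x0 k, y0 k} := by
    rw [adjoin_x0_y0]; trivial
  induction hz using IntermediateField.adjoin_induction with
  | mem z hz =>
    rcases hz with rfl | hz
    · exact hx
    · rw [Set.mem_singleton_iff] at hz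
      subst hz
      exact hy
  | algebraMap c => rw [AlgHom.commutes, AlgHom.commutes]
  | add a b _ _ ha hb => rw [map_add, map_add, ha, hb]
  | inv a _ ha => rw [map_inv₀, map_inv₀, ha]
  | mul a b _ _ ha hb => rw [map_mul, map_mul, ha, hb]

theorem even_FE (k : Type) [Field k] [IsAlgClosed k] [CharZero k] [DecidableEq (FE k)]
    (P0 : Pt (FE k)) (hP0 : ∃ h, P0 = WeierstrassCurve.Affine.Point.some (x0 k) (y0 k) h)
    (P : Pt (FE k)) : (4 : ℤ) ∣ (hx k (P + P0) : ℤ) - hx k P - hx k P0 := by
  have hchF : CharZero (FE k) := charZero_of_injective_algebraMap (algebraMap k (FE k)).injective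
  exact H16.even_FE_of k
    (fun g d i0 hi hp hnn hd hmul hI P0 h1 hd1 P =>
      even_of_mul g d i0 hi hp hnn hd hmul hI P0 h1 hd1 P)
    (fun D P Q => gQ_add D P Q)
    (fun f => hN_eq_zero_iff k (isFF_FE k) f)
    (fun τ f => hN_algHom k τ f)
    (fun P Q => parallelogram (isFF_FE k) P Q)
    (hN_x0 k)
    (fun x y h hx => exists_algHom k x y h hx)
    (exists_derivation k)
    (fun D hDx hDy Q => H58.gQ_mem_range' k
      (fun f hf => mem_range_of_forall_valuationSubring k f hf) D
      (fun A hk f hf => H58.derivation_mem' k (fun A hk hx0 f hf => mem_valuationSubring k A hk hx0 f hf)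
        (x0y0 k) (transcendental_x0 k) (fun x y h hx => exists_algHom k x y h hx)
        (fun f g hx hy => algHom_ext_FE k f g hx hy) D hDx hDy
        (fun ψ f => D_comp k D hDx hDy ψ f) A hk f hf) Q)
    (fun D hDx f hf => mem_range_of_D_eq_zero k D hDx f hf)
    (fun D hDx hDy ψ f => D_comp k D hDx hDy ψ f)
    P0 hP0 P

/-- PAR for points -/
theorem PAR (k N : Type) [Field k] [IsAlgClosed k] [CharZero k] [Field N] [Algebra k N]
    [DecidableEq N] (hN' : IsFF k N) (P Q : Pt N) : 4 ∣ hx k P + hx k Q + hx k (P + Q) := by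
  refine PAR_of k (fun N _ _ _ f hf => transcendental_of_not_const k f hf)
    (fun N _ _ h f => hN_eq_zero_iff k h f)
    (fun L _ _ _ _ _ => IsFF.finite' k (isFF_FE k))
    (fun L _ _ _ h P Q => parallelogram h P Q)
    (x0y0 k) (hN_x0 k) (fun N _ _ x y h hx => exists_algHom k x y h hx)
    (fun P0 hP0 P => even_FE k P0 hP0 P) N hN' P Q

/-- the statement of the chapter -/
theorem par : Pool.Agent.PI.PARStatement :=
  parStatement_of (fun k N _ _ _ _ _ _ h P Q => PAR k N h P Q)

end PiPar
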