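import Pool.Agent.Lib.MP_43d240_ag.H56.Defs

set_option autoImplicit false

/-! # Module H3: the tower law for `[N : k(f)]` -/

namespace PiPar

open WeierstrassCurve WeierstrassCurve.Affine

/-- H3 -/
theorem hN_map (k : Type*) [Field k] {N N' : Type*} [Field N] [Field N'] [Algebra k N]
    [Algebra k N'] [Algebra N N'] [IsScalarTower k N N'] (f : N) :
    hN k N' (algebraMap N N' f) = Module.finrank N N' * hN k N f := by
  let φ : N →ₐ[k] N' := IsScalarTower.toAlgHom k N N'
  let K1 := IntermediateField.adjoin k {f}
  let K2 := IntermediateField.adjoin k {algebraMap N N' f}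
  have hmap : K1.map φ = K2 := by
    simp only [K1, K2, IntermediateField.adjoin_map, Set.image_singleton]
    rfl
  let e0 : K1 ≃ₐ[k] K1.map φ := IntermediateField.equivMap K1 φ
  let e1 : K1.map φ ≃ₐ[k] K2 := IntermediateField.equivOfEq hmap
  let e : K1 ≃+* K2 := (e0.trans e1).toRingEquiv
  have he : ∀ z : K1, ((e z : K2) : N') = algebraMap N N' (z : N) := by
    intro z
    rfl
  have h1 : Module.finrank K1 N' = Module.finrank K2 N' := by
    refine Algebra.finrank_eq_of_equiv_equiv e (RingEquiv.refl N') ?_
    ext z
    show algebraMap K2 N' (e z) = algebraMap K1 N' z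
    rw [IsScalarTower.algebraMap_apply K1 N N']
    exact he z
  have h2 : Module.finrank K1 N * Module.finrank N N' = Module.finrank K1 N' :=
    Module.finrank_mul_finrank K1 N N'
  show Module.finrank K2 N' = Module.finrank N N' * Module.finrank K1 N
  rw [← h1, ← h2, mul_comm]

/-- H3' : the same for a homomorphism; `finrank` with respect to `τ.toAlgebra` -/
theorem hN_algHom (k : Type*) [Field k] {N N' : Type*} [Field N] [Field N'] [Algebra k N]
    [Algebra k N'] (τ : N →ₐ[k] N') (f : N) :
    hN k N' (τ f) = @Module.finrank N N' _ _ (τ : N →+* N').toAlgebra.toModule * hN k N f := by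
  let _ : Algebra N N' := (τ : N →+* N').toAlgebra
  have : IsScalarTower k N N' := IsScalarTower.of_algebraMap_eq (fun c => (τ.commutes c).symm)
  exact hN_map k f

theorem hx_map (k : Type*) [Field k] {N N' : Type*} [Field N] [Field N'] [Algebra k N]
    [Algebra k N'] [Algebra N N'] [IsScalarTower k N N'] [DecidableEq N] [DecidableEq N']
    (P : Pt N) :
    hx k (mapPt (IsScalarTower.toAlgHom k N N') P) = Module.finrank N N' * hx k P := by
  rcases P with _ | ⟨x, y, h⟩
  · rfl
  · exact hN_map k x

theorem hx_algHom (k : Type*) [Field k] {N N' : Type*} [Field N] [Field N'] [Algebra k N]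
    [Algebra k N'] [DecidableEq N] [DecidableEq N'] (τ : N →ₐ[k] N') (P : Pt N) :
    hx k (mapPt τ P) = @Module.finrank N N' _ _ (τ : N →+* N').toAlgebra.toModule * hx k P := by
  rcases P with _ | ⟨x, y, h⟩
  · rfl
  · exact hN_algHom k τ x

end PiPar
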