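import Pool.Agent.Lib.MP_43d240_ag.H56.Tower

set_option autoImplicit false

/-! # Module G: the trace of a point -/

namespace PiPar

open WeierstrassCurve WeierstrassCurve.Affine

universe u v

/-- A1 (copy): a map with the parallelogram law is biadditive. -/
theorem biadd_of_parallelogram' {M : Type*} [AddCommGroup M] (q : M → ℤ)
    (hp : ∀ P Q, q (P + Q) + q (P - Q) = 2 * q P + 2 * q Q) (P Q R : M) :
    q (P + Q + R) - q (P + Q) - q R = (q (P + R) - q P - q R) + (q (Q + R) - q Q - q R) := by
  have h1 := hp (P + R) (Q)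
  have h2 := hp (P) (Q)
  have h3 := hp (R - Q) P
  have h4 := hp R Q
  have h5 := hp (R) (Q + P)
  have h6 := hp (P - Q) R
  have h7 := hp P (R + Q)
  have h8 := hp (P + R - Q) 0
  have hneg : ∀ S, q (-S) = q S := by
    intro S
    have a := hp 0 S
    have b := hp 0 0
    simp only [zero_add, zero_sub, add_zero, sub_zero] at a b
    linarith
  have e1 : P + R + Q = P + Q + R := by abel
  have e2 : R - Q + P = P + R - Q := by abel
  have e3 : q (R - Q - P) = q (P + Q - R) := by
    rw [← hneg]; congr 1; abel
  have e4 : R + (Q + P) = P + Q + R := by abel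
  have e5 : q (R - (Q + P)) = q (P + Q - R) := by
    rw [← hneg]; congr 1; abel
  rw [e1] at h1
  rw [e2, e3] at h3
  rw [e4, e5] at h5
  have e6 : Q + P = P + Q := by abel
  rw [e6] at h5
  have e7 : q (Q + R) = q (R + Q) := by congr 1; abel
  have h9 : q (P + R - Q) = q (P + R - Q) := rfl
  linarith

/-- the polar form of `hx` -/
noncomputable def B2 (k : Type*) {N : Type*} [Field k] [Field N] [Algebra k N] [DecidableEq N]
    (P Q : Pt N) : ℤ := (hx k (P + Q) : ℤ) - hx k P - hx k Q

section polar

variable (k : Type u) [Field k] {N : Type v} [Field N] [Algebra k N] [DecidableEq N]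

theorem B2_add_right (hpar : ∀ P Q : Pt N, hx k (P + Q) + hx k (P - Q) = 2 * hx k P + 2 * hx k Q)
    (P Q R : Pt N) : B2 k P (Q + R) = B2 k P Q + B2 k P R := by
  have h := biadd_of_parallelogram' (fun P : Pt N => (hx k P : ℤ)) (fun P Q => by
    have := hpar P Q
    exact_mod_cast this) Q R P
  simp only [B2]
  have e1 : P + (Q + R) = Q + R + P := by abel
  have e2 : P + Q = Q + P := by abel
  have e3 : P + R = R + P := by abel
  rw [e1, e2, e3]
  linarith

theorem B2_sum_right (hpar : ∀ P Q : Pt N, hx k (P + Q) + hx k (P - Q) = 2 * hx k P + 2 * hx k Q)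
    (P : Pt N) {ι : Type*} (s : Finset ι) (f : ι → Pt N) :
    B2 k P (∑ i ∈ s, f i) = ∑ i ∈ s, B2 k P (f i) := by
  classical
  induction s using Finset.induction_on with
  | empty => simp [B2]
  | insert a s ha ih =>
    rw [Finset.sum_insert ha, Finset.sum_insert ha, B2_add_right k hpar, ih]

end polar

section trace

variable (k : Type u) [Field k] (F N L : Type*) [Field F] [Field N] [Field L]
  [Algebra k F] [Algebra k N] [Algebra k L] [Algebra F N] [Algebra F L]
  [IsScalarTower k F N] [IsScalarTower k F L]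
  [DecidableEq F] [DecidableEq N] [DecidableEq L]

/-- a point fixed by the Galois group comes from below -/
theorem exists_map_eq_of_fixed [FiniteDimensional F L] [IsGalois F L] [CharZero F] (R : Pt L)
    (hR : ∀ σ : L ≃ₐ[F] L, mapPt ((σ : L →ₐ[F] L).restrictScalars k) R = R) :
    ∃ R' : Pt F, mapPt (IsScalarTower.toAlgHom k F L) R' = R := by
  rcases R with _ | ⟨x, y, h⟩
  · exact ⟨0, rfl⟩
  · have hx' : ∀ σ : L ≃ₐ[F] L, σ x = x := by
      intro σ
      have := hR σ
      rw [WeierstrassCurve.Affine.Point.map_some, WeierstrassCurve.Affine.Point.some.injEq] at this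
      exact this.1
    have hy' : ∀ σ : L ≃ₐ[F] L, σ y = y := by
      intro σ
      have := hR σ
      rw [WeierstrassCurve.Affine.Point.map_some, WeierstrassCurve.Affine.Point.some.injEq] at this
      exact this.2
    obtain ⟨x', rfl⟩ := (IsGalois.mem_range_algebraMap_iff_fixed x).2 hx'
    obtain ⟨y', rfl⟩ := (IsGalois.mem_range_algebraMap_iff_fixed y).2 hy'
    have : CharZero L := charZero_of_injective_algebraMap (algebraMap F L).injective
    have h1 := (EF_nonsingular two_ne_zero _ _).1 h
    have h2 : y' ^ 2 = x' ^ 3 - x' := by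
      apply (algebraMap F L).injective
      simpa using h1
    exact ⟨mkPt x' y' h2, rfl⟩

omit [DecidableEq F] in
/-- the sum of the conjugates is fixed -/
theorem sum_fixed [FiniteDimensional F L] [FiniteDimensional F N] (Q : Pt N) (σ : L ≃ₐ[F] L) :
    mapPt ((σ : L →ₐ[F] L).restrictScalars k)
      (∑ τ : N →ₐ[F] L, mapPt (τ.restrictScalars k) Q) =
      ∑ τ : N →ₐ[F] L, mapPt (τ.restrictScalars k) Q := by
  rw [map_sum]
  let e : (N →ₐ[F] L) ≃ (N →ₐ[F] L) :=
    { toFun := fun τ => (σ : L →ₐ[F] L).comp τ
      invFun := fun τ => (σ.symm : L →ₐ[F] L).comp τ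
      left_inv := fun τ => by ext; simp
      right_inv := fun τ => by ext; simp }
  refine Fintype.sum_equiv e _ _ ?_
  intro τ
  show mapPt _ (mapPt _ Q) = mapPt _ Q
  rw [mapPt, mapPt, WeierstrassCurve.Affine.Point.map_map]
  rfl

/-- the trace formula in a finite Galois extension `L/F` containing `N` -/
theorem exists_trace_of_galois [Algebra N L] [IsScalarTower F N L] [FiniteDimensional F L]
    [FiniteDimensional F N] [IsGalois F L] [CharZero F]
    (hcard : Fintype.card (N →ₐ[F] L) = Module.finrank F N)
    (hparL : ∀ P Q : Pt L, hx k (P + Q) + hx k (P - Q) = 2 * hx k P + 2 * hx k Q)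
    (P : Pt F) (Q : Pt N) :
    ∃ R : Pt F, B2 k (mapPt (IsScalarTower.toAlgHom k F N) P) Q = B2 k P R := by
  classical
  obtain ⟨R, hR⟩ := exists_map_eq_of_fixed k F L
    (∑ τ : N →ₐ[F] L, mapPt (τ.restrictScalars k) Q) (sum_fixed k F N L Q)
  refine ⟨R, ?_⟩
  set PN : Pt N := mapPt (IsScalarTower.toAlgHom k F N) P with hPN
  set PL : Pt L := mapPt (IsScalarTower.toAlgHom k F L) P with hPL
  set n := Module.finrank F N with hn
  set m := Module.finrank F L with hm
  have hmpos : 0 < m := Module.finrank_pos
  -- the conjugates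
  have hτ : ∀ τ : N →ₐ[F] L, (n : ℤ) * B2 k PL (mapPt (τ.restrictScalars k) Q) =
      m * B2 k PN Q := by
    intro τ
    set fτ := @Module.finrank N L _ _ ((τ.restrictScalars k : N →ₐ[k] L) : N →+* L).toAlgebra.toModule
      with hfτ
    have h1 : n * fτ = m := by
      let _ : Algebra N L := ((τ.restrictScalars k : N →ₐ[k] L) : N →+* L).toAlgebra
      have : IsScalarTower F N L := IsScalarTower.of_algebraMap_eq (fun c => (τ.commutes c).symm)
      exact Module.finrank_mul_finrank F N L
    have h2 : PL = mapPt (τ.restrictScalars k) PN := by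
      have hcomp : (τ.restrictScalars k).comp (IsScalarTower.toAlgHom k F N) =
          IsScalarTower.toAlgHom k F L := AlgHom.ext (fun c => τ.commutes c)
      rw [hPL, hPN, mapPt, mapPt, mapPt, WeierstrassCurve.Affine.Point.map_map, hcomp]
    have h3 : B2 k PL (mapPt (τ.restrictScalars k) Q) = fτ * B2 k PN Q := by
      rw [h2, B2, B2, ← map_add, hx_algHom k _ (PN + Q), hx_algHom k _ PN, hx_algHom k _ Q]
      push_cast
      ring
    rw [h3, ← mul_assoc, ← h1]
    push_cast
    ring
  have hsum : B2 k PL (mapPt (IsScalarTower.toAlgHom k F L) R) =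
      ∑ τ : N →ₐ[F] L, B2 k PL (mapPt (τ.restrictScalars k) Q) := by
    rw [hR]
    exact B2_sum_right k hparL PL _ _
  have hleft : B2 k PL (mapPt (IsScalarTower.toAlgHom k F L) R) = m * B2 k P R := by
    rw [hPL, B2, B2, ← map_add, hx_map k (P + R), hx_map k P, hx_map k R]
    push_cast
    ring
  have htot : (n : ℤ) * (m * B2 k P R) = n * (m * B2 k PN Q) := by
    rw [← hleft, hsum, Finset.mul_sum, Finset.sum_congr rfl (fun τ _ => hτ τ), Finset.sum_const,
      Finset.card_univ, hcard, nsmul_eq_mul]
  have hnpos : 0 < n := Module.finrank_pos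
  have h4 : (m : ℤ) * B2 k P R = m * B2 k PN Q :=
    mul_left_cancel₀ (by exact_mod_cast hnpos.ne') htot
  exact (mul_left_cancel₀ (by exact_mod_cast hmpos.ne') h4).symm

end trace

section final

variable (k : Type u) [Field k] (F : Type*) (N : Type v) [Field F] [Field N]
  [Algebra k F] [Algebra k N] [Algebra F N] [IsScalarTower k F N]
  [DecidableEq F] [DecidableEq N]

/-- G: the trace formula -/
theorem exists_trace [CharZero F] [FiniteDimensional F N]
    (hfin : ∀ (L : Type v) [Field L] [Algebra k L] [Algebra F L] [IsScalarTower k F L]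
      [FiniteDimensional F L], IsFF k L)
    (hpar : ∀ (L : Type v) [Field L] [Algebra k L] [DecidableEq L], IsFF k L →
      ∀ P Q : Pt L, hx k (P + Q) + hx k (P - Q) = 2 * hx k P + 2 * hx k Q)
    (P : Pt F) (Q : Pt N) :
    ∃ R : Pt F, B2 k (mapPt (IsScalarTower.toAlgHom k F N) P) Q = B2 k P R := by
  classical
  let Ω := AlgebraicClosure N
  let L := IntermediateField.normalClosure F N Ω
  have : Normal F Ω := by
    have : Algebra.IsAlgebraic F Ω := Algebra.IsAlgebraic.trans F N Ω
    have : IsAlgClosure F Ω := ⟨inferInstance, inferInstance⟩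
    infer_instance
  have hsep : Algebra.IsSeparable F N := inferInstance
  have : IsGalois F L := { }
  have hcard : Fintype.card (N →ₐ[F] L) = Module.finrank F N := by
    rw [Fintype.card_congr (normalClosure.algHomEquiv F N Ω)]
    exact AlgHom.card F N Ω
  exact exists_trace_of_galois k F N L hcard (hpar L (hfin L)) P Q

end final

end PiPar
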